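import Pool.Agent.Helper48.LCY.TrF
import Pool.Agent.Helper48.LCY.Final

/-!
Images of the multiplicative group in log Calabi-Yau surface complements (MP_f7e214_ag): the full
answer to Q1. The definitions used in the statement are in `Pool/Agent/Helper48/LCY/Pairs.lean`.
-/

namespace Pool.Agent.Results.MP_f7e214_ag.LogCalabiYau

theorem result : ∀ (N : ℕ) (Y : LCS.Var N) (D : Set (LCS.Var N)), LCS.LogCY Y D →
    LCS.DominatedT Y D ∧ LCS.Dominated Y D := by
  intro N Y D h
  obtain ⟨a, b⟩ := LCY.Final.all N Y.old (LCS.Var.old '' D)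
    (LCS.logCY_old h (LCS.uniruled_old Y h.uniruled)
      (LCS.canonical_old Y D (LCS.isCurveOn_old Y) h.canonical))
  exact ⟨LCS.dominatedT_old a, LCS.dominated_old b⟩

end Pool.Agent.Results.MP_f7e214_ag.LogCalabiYau
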